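import Mathlib

/-! Regular polygons and lines with angles that are multiples of `π / m`. -/

set_option autoImplicit false

namespace Pool.Agent.Q331.AST

open Complex

/-- the angle `π / m` -/
noncomputable def th (m : ℕ) : ℝ := Real.pi / m

/-- the point of the unit circle of angle `a π / m` -/
noncomputable def E (m : ℕ) (a : ℤ) : ℂ := exp (((a : ℝ) * th m : ℝ) * I)

lemma E_add (m : ℕ) (a b : ℤ) : E m (a + b) = E m a * E m b := by
  unfold E
  rw [← exp_add]
  congr 1
  push_cast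
  ring

lemma E_zero (m : ℕ) : E m 0 = 1 := by simp [E]

lemma E_ne_zero (m : ℕ) (a : ℤ) : E m a ≠ 0 := exp_ne_zero _

lemma norm_E (m : ℕ) (a : ℤ) : ‖E m a‖ = 1 := norm_exp_ofReal_mul_I _

lemma E_re (m : ℕ) (a : ℤ) : (E m a).re = Real.cos (a * th m) := exp_ofReal_mul_I_re _

lemma E_neg (m : ℕ) (a : ℤ) : E m (-a) * E m a = 1 := by
  rw [← E_add, neg_add_cancel, E_zero]

lemma E_conj (m : ℕ) (a : ℤ) : (starRingEnd ℂ) (E m a) = E m (-a) := by
  unfold E
  rw [← exp_conj]
  congr 1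
  simp

lemma th_mul {m : ℕ} (hm : 0 < m) : (m : ℝ) * th m = Real.pi := by
  unfold th
  have : (m : ℝ) ≠ 0 := by exact_mod_cast hm.ne'
  field_simp

lemma th_pos {m : ℕ} (hm : 0 < m) : 0 < th m := by
  unfold th
  have : (0 : ℝ) < m := by exact_mod_cast hm
  exact div_pos Real.pi_pos this

lemma angle_iff {m : ℕ} (hm : 0 < m) (a b n : ℤ) :
    (a : ℝ) * th m = b * th m + n * (2 * Real.pi) ↔ a - b = 2 * m * n := by
  have h1 := th_mul hm
  have h2 := th_pos hm
  rw [← h1]
  constructor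
  · intro h
    have h3 : ((a : ℝ) - b - 2 * m * n) * th m = 0 := by linear_combination h
    rcases mul_eq_zero.1 h3 with h4 | h4
    · have h5 : (a : ℝ) - b = 2 * m * n := by linarith
      exact_mod_cast h5
    · linarith
  · intro h
    have h3 : (a : ℝ) - b = 2 * m * n := by exact_mod_cast h
    linear_combination th m * h3

lemma E_eq_iff {m : ℕ} (hm : 0 < m) (a b : ℤ) : E m a = E m b ↔ (2 * m : ℤ) ∣ a - b := by
  unfold E
  rw [exp_eq_exp_iff_exists_int]
  constructor
  · rintro ⟨n, hn⟩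
    refine ⟨n, ?_⟩
    rw [← angle_iff hm]
    have h1 : ((((a : ℝ) * th m : ℝ) : ℂ) * I) = (((b * th m + n * (2 * Real.pi) : ℝ) : ℂ)) * I := by
      rw [hn]
      push_cast
      ring
    have h2 := mul_right_cancel₀ I_ne_zero h1
    exact_mod_cast h2
  · rintro ⟨n, hn⟩
    refine ⟨n, ?_⟩
    have h1 := (angle_iff hm a b n).2 hn
    rw [h1]
    push_cast
    ring

lemma cos_iff {m : ℕ} (hm : 0 < m) (h s : ℤ) :
    Real.cos (h * th m) = Real.cos (s * th m) ↔ (2 * m : ℤ) ∣ h - s ∨ (2 * m : ℤ) ∣ h + s := by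
  rw [Real.cos_eq_cos_iff]
  constructor
  · rintro ⟨k, hk | hk⟩
    · left
      have h1 : (s : ℝ) * th m = h * th m + k * (2 * Real.pi) := by rw [hk]; ring
      rw [angle_iff hm] at h1
      exact ⟨-k, by linear_combination -h1⟩
    · right
      have h1 : (s : ℝ) * th m = ((-h : ℤ) : ℝ) * th m + k * (2 * Real.pi) := by rw [hk]; push_cast; ring
      rw [angle_iff hm] at h1
      exact ⟨k, by linear_combination h1⟩
  · rintro (⟨k, hk⟩ | ⟨k, hk⟩)
    · refine ⟨-k, Or.inl ?_⟩
      have h1 : (s : ℝ) * th m = h * th m + ((-k : ℤ) : ℝ) * (2 * Real.pi) :=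
        (angle_iff hm s h (-k)).2 (by linear_combination -hk)
      rw [h1]
      push_cast
      ring
    · refine ⟨k, Or.inr ?_⟩
      have h1 : (s : ℝ) * th m = ((-h : ℤ) : ℝ) * th m + (k : ℝ) * (2 * Real.pi) :=
        (angle_iff hm s (-h) k).2 (by linear_combination hk)
      rw [h1]
      push_cast
      ring

/-- the line at distance `d` from `0` whose normal has the angle `b π / m` -/
def ln (m : ℕ) (d : ℝ) (b : ℤ) : Set ℂ := {z | (z * E m (-b)).re = d}

lemma mem_ln (m : ℕ) (r d : ℝ) (a b : ℤ) : (r : ℂ) * E m a ∈ ln m d b ↔ r * Real.cos (((a - b : ℤ) : ℝ) * th m) = d := by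
  unfold ln
  rw [Set.mem_ofPred_eq, mul_assoc, ← E_add, ← sub_eq_add_neg, re_ofReal_mul, E_re]

/-- a line of the plane `ℂ` -/
def IsLine (ℓ : Set ℂ) : Prop := ∃ a v : ℂ, v ≠ 0 ∧ ℓ = {z | ∃ t : ℝ, z = a + t * v}

lemma isLine_ln (m : ℕ) (d : ℝ) (b : ℤ) : IsLine (ln m d b) := by
  refine ⟨d * E m b, I * E m b, mul_ne_zero I_ne_zero (E_ne_zero _ _), ?_⟩
  ext z
  unfold ln
  rw [Set.mem_ofPred_eq, Set.mem_ofPred_eq]
  constructor
  · intro h
    refine ⟨(z * E m (-b)).im, ?_⟩
    have h1 : z * E m (-b) = d + (z * E m (-b)).im * I := by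
      conv_lhs => rw [← re_add_im (z * E m (-b)), h]
    have h2 : z = z * E m (-b) * E m b := by rw [mul_assoc, E_neg, mul_one]
    calc z = z * E m (-b) * E m b := h2
      _ = (d + (z * E m (-b)).im * I) * E m b := by rw [← h1]
      _ = _ := by ring
  · rintro ⟨t, rfl⟩
    have h1 : (↑d * E m b + ↑t * (I * E m b)) * E m (-b) = d + t * I := by
      have := E_neg m b
      linear_combination (d + t * I) * this
    rw [h1]
    simp

lemma ln_eq_iff {m : ℕ} (hm : 0 < m) {d d' : ℝ} (hd : 0 < d) (hd' : 0 < d') (b b' : ℤ) :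
    ln m d b = ln m d' b' ↔ d = d' ∧ (2 * m : ℤ) ∣ b - b' := by
  constructor
  · intro h
    have h1 : (d : ℂ) * E m b ∈ ln m d b := by
      rw [mem_ln]; simp
    have h2 : (d' : ℂ) * E m b' ∈ ln m d' b' := by
      rw [mem_ln]; simp
    rw [h, mem_ln] at h1
    rw [← h, mem_ln] at h2
    have c1 := Real.cos_le_one (((b - b' : ℤ) : ℝ) * th m)
    have c2 := Real.cos_le_one (((b' - b : ℤ) : ℝ) * th m)
    have e1 : d' ≤ d := by nlinarith
    have e2 : d ≤ d' := by nlinarith
    have e3 : d = d' := le_antisymm e2 e1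
    refine ⟨e3, ?_⟩
    have e4 : Real.cos (((b - b' : ℤ) : ℝ) * th m) = Real.cos (((0 : ℤ) : ℝ) * th m) := by
      rw [← e3] at h1
      have : d * (Real.cos (((b - b' : ℤ) : ℝ) * th m) - 1) = 0 := by linarith
      rcases mul_eq_zero.1 this with h5 | h5
      · linarith
      · simp only [Int.cast_zero, zero_mul, Real.cos_zero]; linarith
    rw [cos_iff hm] at e4
    simpa using e4
  · rintro ⟨rfl, h⟩
    unfold ln
    have : E m (-b) = E m (-b') := by
      rw [E_eq_iff hm]
      obtain ⟨k, hk⟩ := h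
      exact ⟨-k, by linear_combination -hk⟩
    rw [this]

lemma rot_ln (m : ℕ) (d : ℝ) (b c : ℤ) : (fun z => E m c * z) '' ln m d b = ln m d (b + c) := by
  ext z
  unfold ln
  rw [Set.mem_image]
  constructor
  · rintro ⟨w, hw, rfl⟩
    rw [Set.mem_ofPred_eq] at hw ⊢
    rw [← hw]
    congr 1
    have h1 : E m (-b) = E m (-(b + c)) * E m c := by rw [← E_add]; congr 1; ring
    rw [h1]
    ring
  · intro hz
    rw [Set.mem_ofPred_eq] at hz
    refine ⟨E m (-c) * z, ?_, ?_⟩
    · rw [Set.mem_ofPred_eq, ← hz]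
      congr 1
      have h1 : E m (-(b + c)) = E m (-c) * E m (-b) := by rw [← E_add]; congr 1; ring
      rw [h1]
      ring
    · rw [← mul_assoc, mul_comm (E m c), E_neg, one_mul]

lemma conj_ln (m : ℕ) (d : ℝ) (b : ℤ) : (starRingEnd ℂ) '' ln m d b = ln m d (-b) := by
  have key : ∀ (b : ℤ) (w : ℂ), w ∈ ln m d b → (starRingEnd ℂ) w ∈ ln m d (-b) := by
    intro b w hw
    unfold ln at hw ⊢
    rw [Set.mem_ofPred_eq] at hw ⊢
    rw [neg_neg]
    have h1 : E m b = (starRingEnd ℂ) (E m (-b)) := by rw [E_conj, neg_neg]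
    rw [h1, ← map_mul, conj_re, hw]
  ext z
  rw [Set.mem_image]
  constructor
  · rintro ⟨w, hw, rfl⟩
    exact key b w hw
  · intro hz
    refine ⟨(starRingEnd ℂ) z, ?_, by simp⟩
    have := key (-b) z hz
    rwa [neg_neg] at this

/-- the number of values of a periodic sequence -/
lemma ncard_values {α : Type*} (f : ℤ → α) (m : ℕ) (hm : 0 < m) (hf : ∀ k k', f k = f k' ↔ (m : ℤ) ∣ k - k') :
    {x | ∃ k, x = f k}.Finite ∧ {x | ∃ k, x = f k}.ncard = m := by
  have h1 : {x | ∃ k, x = f k} = (fun k : ℕ => f k) '' (Finset.range m : Set ℕ) := by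
    ext x
    rw [Set.mem_ofPred_eq, Set.mem_image]
    constructor
    · rintro ⟨k, rfl⟩
      have hm' : (m : ℤ) ≠ 0 := by exact_mod_cast hm.ne'
      refine ⟨(k % m).toNat, ?_, ?_⟩
      · rw [Finset.mem_coe, Finset.mem_range]
        have := Int.emod_lt_of_pos k (by exact_mod_cast hm : (0 : ℤ) < m)
        have := Int.emod_nonneg k hm'
        omega
      · rw [hf]
        rw [Int.toNat_of_nonneg (Int.emod_nonneg k hm')]
        exact ⟨-(k / m), by have := Int.emod_add_mul_ediv k m; linear_combination this⟩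
    · rintro ⟨k, _, rfl⟩
      exact ⟨k, rfl⟩
  have h2 : Set.InjOn (fun k : ℕ => f k) (Finset.range m : Set ℕ) := by
    intro a ha b hb hab
    rw [Finset.mem_coe, Finset.mem_range] at ha hb
    simp only at hab
    rw [hf] at hab
    have := Int.eq_zero_of_abs_lt_dvd hab (by rw [abs_lt]; constructor <;> omega)
    omega
  rw [h1]
  refine ⟨Set.Finite.image _ (Finset.finite_toSet _), ?_⟩
  rw [h2.ncard_image, Set.ncard_coe_finset, Finset.card_range]

end Pool.Agent.Q331.AST
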