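import Pool.Agent.Q331.AST.Base

/-! Conjugates of relations between cosines. -/

set_option autoImplicit false

namespace Pool.Agent.Q331.AST

open Complex Polynomial

lemma two_cos {m : ℕ} (hm : 0 < m) (k n : ℕ) :
    (E m k) ^ n + (E m k) ^ ((2 * m - 1) * n) = 2 * Real.cos ((k : ℝ) * n * th m) := by
  have hpow : ∀ (a : ℤ) (j : ℕ), (E m a) ^ j = E m (a * j) := by
    intro a j
    induction j with
    | zero => simp [E_zero]
    | succ j ih =>
      rw [pow_succ, ih, ← E_add]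
      congr 1
      push_cast
      ring
  have h1 : (E m k) ^ ((2 * m - 1) * n) = E m (-(k * n : ℤ)) := by
    rw [hpow, E_eq_iff hm]
    refine ⟨k * n, ?_⟩
    push_cast [show 1 ≤ 2 * m by omega]
    ring
  rw [hpow, h1, ← E_conj]
  have h2 := Complex.add_conj (E m ((k : ℤ) * n))
  rw [h2, E_re]
  push_cast
  ring_nf

lemma prim {m : ℕ} (hm : 0 < m) : IsPrimitiveRoot (E m 1) (2 * m) := by
  have h1 := Complex.isPrimitiveRoot_exp (2 * m) (by omega)
  have h2 : E m 1 = exp (2 * Real.pi * I / ((2 * m : ℕ) : ℂ)) := by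
    unfold E th
    congr 1
    have : (m : ℂ) ≠ 0 := by exact_mod_cast hm.ne'
    push_cast
    field_simp
  rw [h2]
  exact h1

/-- a relation between products of cosines remains true for the conjugates -/
lemma conjugate {m : ℕ} (hm : 0 < m) (k : ℕ) (hk : k.Coprime (2 * m)) (a b c e : ℕ)
    (h : Real.cos (a * th m) * Real.cos (b * th m) = Real.cos (c * th m) * Real.cos (e * th m)) :
    Real.cos ((k : ℝ) * a * th m) * Real.cos ((k : ℝ) * b * th m) =
      Real.cos ((k : ℝ) * c * th m) * Real.cos ((k : ℝ) * e * th m) := by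
  let g : ℕ → ℤ[X] := fun n => X ^ n + X ^ ((2 * m - 1) * n)
  let F : ℤ[X] := g a * g b - g c * g e
  have hg : ∀ (k n : ℕ), (aeval (E m k)) (g n) = 2 * Real.cos ((k : ℝ) * n * th m) := by
    intro k n
    simp only [g, map_add, map_pow, aeval_X]
    exact two_cos hm k n
  have hF : ∀ k : ℕ, (aeval (E m k)) F = 4 * ((Real.cos ((k : ℝ) * a * th m) * Real.cos ((k : ℝ) * b * th m) -
      Real.cos ((k : ℝ) * c * th m) * Real.cos ((k : ℝ) * e * th m) : ℝ) : ℂ) := by
    intro k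
    simp only [F, map_sub, map_mul, hg]
    push_cast
    ring
  have h1 : (aeval (E m 1)) F = 0 := by
    have := hF 1
    simp only [Nat.cast_one, one_mul] at this
    rw [this, h]
    simp
  have hp := prim hm
  have h2 : minpoly ℤ (E m 1) ∣ F := minpoly.isIntegrallyClosed_dvd (hp.isIntegral (by omega)) h1
  have h3 : minpoly ℤ (E m 1) = minpoly ℤ ((E m 1) ^ k) := hp.minpoly_eq_pow_coprime hk
  have h4 : (E m 1) ^ k = E m k := by
    have : ∀ j : ℕ, (E m 1) ^ j = E m j := by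
      intro j
      induction j with
      | zero => simp [E_zero]
      | succ j ih => rw [pow_succ, ih, ← E_add]; push_cast; rfl
    exact this k
  have h5 : (aeval (E m k)) F = 0 := by
    rw [h3, h4] at h2
    obtain ⟨G, hG⟩ := h2
    rw [hG, map_mul, minpoly.aeval, zero_mul]
  rw [hF k] at h5
  have h6 : (4 : ℂ) ≠ 0 := by norm_num
  have h7 := (mul_eq_zero.1 h5).resolve_left h6
  have h8 : Real.cos ((k : ℝ) * a * th m) * Real.cos ((k : ℝ) * b * th m) -
      Real.cos ((k : ℝ) * c * th m) * Real.cos ((k : ℝ) * e * th m) = 0 := by exact_mod_cast h7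
  linarith

/-- the values at `π / 5`, `2 π / 5`, `π / 3` -/
lemma cos_sixth {l : ℕ} (hl : 0 < l) : Real.cos (((6 * l : ℕ) : ℝ) * th (30 * l)) = Real.cos (Real.pi / 5) := by
  congr 1
  unfold th
  have : (l : ℝ) ≠ 0 := by exact_mod_cast hl.ne'
  push_cast
  field_simp
  ring

lemma cos_twelfth {l : ℕ} (hl : 0 < l) : Real.cos (((12 * l : ℕ) : ℝ) * th (30 * l)) = Real.cos (2 * Real.pi / 5) := by
  congr 1
  unfold th
  have : (l : ℝ) ≠ 0 := by exact_mod_cast hl.ne'
  push_cast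
  field_simp
  ring

lemma cos_tenth {l : ℕ} (hl : 0 < l) : Real.cos (((10 * l : ℕ) : ℝ) * th (30 * l)) = 1 / 2 := by
  rw [← Real.cos_pi_div_three]
  congr 1
  unfold th
  have : (l : ℝ) ≠ 0 := by exact_mod_cast hl.ne'
  push_cast
  field_simp
  ring

lemma cos_two_fifth : Real.cos (2 * Real.pi / 5) = (Real.sqrt 5 - 1) / 4 := by
  rw [show 2 * Real.pi / 5 = 2 * (Real.pi / 5) by ring, Real.cos_two_mul, Real.cos_pi_div_five]
  have := Real.sq_sqrt (show (0 : ℝ) ≤ 5 by norm_num)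
  nlinarith

lemma cos_prod : Real.cos (Real.pi / 5) * Real.cos (2 * Real.pi / 5) = 1 / 4 := by
  rw [cos_two_fifth, Real.cos_pi_div_five]
  have := Real.sq_sqrt (show (0 : ℝ) ≤ 5 by norm_num)
  nlinarith

lemma sqrt5_bounds : 2.236 < Real.sqrt 5 ∧ Real.sqrt 5 < 2.237 := by
  constructor
  · rw [Real.lt_sqrt (by norm_num)]; norm_num
  · rw [Real.sqrt_lt' (by norm_num)]; norm_num

/-- no extra incidences of the first kind -/
lemma no_one {l : ℕ} (hl : 0 < l) (h7 : ¬ 7 ∣ l) (h : ℤ) :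
    2 * Real.cos (Real.pi / 5) * Real.cos (h * th (30 * l)) ≠ Real.cos (th (30 * l)) := by
  intro hh
  have hm : 0 < 30 * l := by omega
  obtain ⟨n, hn⟩ : ∃ n : ℕ, Real.cos (h * th (30 * l)) = Real.cos (n * th (30 * l)) := by
    refine ⟨h.natAbs, ?_⟩
    rw [← Real.cos_abs ((h : ℝ) * th (30 * l)), abs_mul, abs_of_pos (th_pos hm)]
    congr 2
    rw [Nat.cast_natAbs, Int.cast_abs]
  rw [hn] at hh
  have h1 : Real.cos (((6 * l : ℕ) : ℝ) * th (30 * l)) * Real.cos (n * th (30 * l)) =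
      Real.cos (((10 * l : ℕ) : ℝ) * th (30 * l)) * Real.cos (((1 : ℕ) : ℝ) * th (30 * l)) := by
    rw [cos_sixth hl, cos_tenth hl, Nat.cast_one, one_mul, ← hh]
    ring
  have hk : Nat.Coprime 7 (2 * (30 * l)) := by
    rw [Nat.Prime.coprime_iff_not_dvd (by norm_num)]
    omega
  have h2 := conjugate hm 7 hk _ _ _ _ h1
  have hl0 : (l : ℝ) ≠ 0 := by exact_mod_cast hl.ne'
  have e1 : Real.cos (((7 : ℕ) : ℝ) * ((6 * l : ℕ) : ℝ) * th (30 * l)) = -Real.cos (2 * Real.pi / 5) := by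
    have : ((7 : ℕ) : ℝ) * ((6 * l : ℕ) : ℝ) * th (30 * l) = Real.pi + 2 * Real.pi / 5 := by
      unfold th
      push_cast
      field_simp
      ring
    rw [this, add_comm, Real.cos_add_pi]
  have e2 : Real.cos (((7 : ℕ) : ℝ) * ((10 * l : ℕ) : ℝ) * th (30 * l)) = 1 / 2 := by
    have : ((7 : ℕ) : ℝ) * ((10 * l : ℕ) : ℝ) * th (30 * l) = Real.pi / 3 + 2 * Real.pi := by
      unfold th
      push_cast
      field_simp
      ring
    rw [this, Real.cos_add_two_pi, Real.cos_pi_div_three]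
  rw [e1, e2, cos_two_fifth] at h2
  have e3 : (7 : ℝ) * th (30 * l) ≤ 0.735 := by
    have hl1 : (1 : ℝ) ≤ l := by exact_mod_cast hl
    have : (7 : ℝ) * th (30 * l) = 7 * Real.pi / 30 / l := by
      unfold th
      push_cast
      field_simp
    rw [this]
    have h4 : 7 * Real.pi / 30 ≤ 0.735 := by linarith [Real.pi_lt_d2]
    calc 7 * Real.pi / 30 / l ≤ 7 * Real.pi / 30 / 1 := by
          apply div_le_div_of_nonneg_left (by positivity) (by norm_num) hl1
      _ ≤ 0.735 := by linarith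
  have e4 := Real.one_sub_sq_div_two_le_cos (x := (7 : ℝ) * th (30 * l))
  have e5 : 0 < (7 : ℝ) * th (30 * l) := by have := th_pos hm; positivity
  have e6 : 0.72 ≤ Real.cos ((7 : ℝ) * th (30 * l)) := by nlinarith
  have e7 := Real.neg_one_le_cos (((7 : ℕ) : ℝ) * n * th (30 * l))
  have e8 : Real.cos (((7 : ℕ) : ℝ) * ((1 : ℕ) : ℝ) * th (30 * l)) = Real.cos ((7 : ℝ) * th (30 * l)) := by
    push_cast; ring_nf
  rw [e8] at h2
  obtain ⟨s1, s2⟩ := sqrt5_bounds
  have e9 : 0 ≤ (Real.sqrt 5 - 1) / 4 * (Real.cos (((7 : ℕ) : ℝ) * n * th (30 * l)) + 1) :=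
    mul_nonneg (by linarith) (by linarith)
  linarith

/-- no extra incidences of the second kind -/
lemma no_two {l : ℕ} (hl : 0 < l) (hodd : Odd l) (h : ℤ) :
    2 * Real.cos (th (30 * l)) * Real.cos (h * th (30 * l)) ≠ 1 / 2 := by
  intro hh
  have hm : 0 < 30 * l := by omega
  obtain ⟨n, hn⟩ : ∃ n : ℕ, Real.cos (h * th (30 * l)) = Real.cos (n * th (30 * l)) := by
    refine ⟨h.natAbs, ?_⟩
    rw [← Real.cos_abs ((h : ℝ) * th (30 * l)), abs_mul, abs_of_pos (th_pos hm)]
    congr 2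
    rw [Nat.cast_natAbs, Int.cast_abs]
  rw [hn] at hh
  have h1 : Real.cos (((1 : ℕ) : ℝ) * th (30 * l)) * Real.cos (n * th (30 * l)) =
      Real.cos (((10 * l : ℕ) : ℝ) * th (30 * l)) * Real.cos (((10 * l : ℕ) : ℝ) * th (30 * l)) := by
    rw [cos_tenth hl, Nat.cast_one, one_mul]
    linarith
  have hk : Nat.Coprime (15 * l + 2) (2 * (30 * l)) := by
    obtain ⟨j, hj⟩ := hodd
    have a1 : Nat.Coprime (15 * l + 2) 2 := by
      rw [Nat.coprime_comm, Nat.Prime.coprime_iff_not_dvd Nat.prime_two]; omega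
    have a2 : Nat.Coprime (15 * l + 2) 3 := by
      rw [Nat.coprime_comm, Nat.Prime.coprime_iff_not_dvd Nat.prime_three]; omega
    have a3 : Nat.Coprime (15 * l + 2) 5 := by
      rw [Nat.coprime_comm, Nat.Prime.coprime_iff_not_dvd Nat.prime_five]; omega
    have a4 : Nat.Coprime (15 * l + 2) l := by
      rw [Nat.coprime_comm]
      apply Nat.Coprime.symm
      have : Nat.Coprime 2 l := by
        rw [Nat.Prime.coprime_iff_not_dvd Nat.prime_two]; omega
      have b1 : Nat.gcd (15 * l + 2) l = Nat.gcd 2 l := by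
        rw [Nat.add_comm, Nat.gcd_comm, Nat.gcd_add_mul_right_right, Nat.gcd_comm]
      unfold Nat.Coprime
      rw [b1]
      exact this
    have : 2 * (30 * l) = 2 * (2 * (3 * (5 * l))) := by ring
    rw [this]
    exact a1.mul_right (a1.mul_right (a2.mul_right (a3.mul_right a4)))
  have h2 := conjugate hm (15 * l + 2) hk _ _ _ _ h1
  have hl0 : (l : ℝ) ≠ 0 := by exact_mod_cast hl.ne'
  have hl1 : (1 : ℝ) ≤ l := by exact_mod_cast hl
  have e1 : Real.cos (((15 * l + 2 : ℕ) : ℝ) * ((1 : ℕ) : ℝ) * th (30 * l)) = -Real.sin (2 * th (30 * l)) := by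
    have : ((15 * l + 2 : ℕ) : ℝ) * ((1 : ℕ) : ℝ) * th (30 * l) = 2 * th (30 * l) + Real.pi / 2 := by
      unfold th
      push_cast
      field_simp
      ring
    rw [this, Real.cos_add_pi_div_two]
  have e2 : Real.cos (((15 * l + 2 : ℕ) : ℝ) * ((10 * l : ℕ) : ℝ) * th (30 * l)) ^ 2 = 1 / 4 := by
    have : ((15 * l + 2 : ℕ) : ℝ) * ((10 * l : ℕ) : ℝ) * th (30 * l) = 2 * (Real.pi / 3) + ((5 * l : ℕ) : ℤ) * Real.pi := by
      unfold th
      push_cast
      field_simp
      ring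
    rw [this, Real.cos_sq, show 2 * (2 * (Real.pi / 3) + (((5 * l : ℕ) : ℤ) : ℝ) * Real.pi) =
      4 * Real.pi / 3 + (((5 * l : ℕ) : ℤ) : ℝ) * (2 * Real.pi) by ring, Real.cos_add_int_mul_two_pi,
      show 4 * Real.pi / 3 = Real.pi / 3 + Real.pi by ring, Real.cos_add_pi, Real.cos_pi_div_three]
    norm_num
  rw [e1, ← sq, e2] at h2
  have e3 : 0 < 2 * th (30 * l) := by have := th_pos hm; positivity
  have e4 : 2 * th (30 * l) ≤ 0.21 := by
    have : 2 * th (30 * l) = Real.pi / 15 / l := by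
      unfold th
      push_cast
      field_simp
      ring
    rw [this]
    calc Real.pi / 15 / l ≤ Real.pi / 15 / 1 := by
          apply div_le_div_of_nonneg_left (by positivity) (by norm_num) hl1
      _ ≤ 0.21 := by linarith [Real.pi_lt_d2]
  have e5 : |Real.sin (2 * th (30 * l))| ≤ 0.21 := by
    have := Real.abs_sin_le_abs (x := 2 * th (30 * l))
    rw [abs_of_pos e3] at this
    linarith
  have e6 := Real.abs_cos_le_one (((15 * l + 2 : ℕ) : ℝ) * n * th (30 * l))
  have e7 : |(1 : ℝ) / 4| ≤ 0.21 := by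
    rw [← h2, abs_mul, abs_neg]
    calc |Real.sin (2 * th (30 * l))| * |Real.cos (((15 * l + 2 : ℕ) : ℝ) * n * th (30 * l))| ≤ 0.21 * 1 :=
          mul_le_mul e5 e6 (abs_nonneg _) (by norm_num)
      _ = 0.21 := by norm_num
  norm_num at e7

end Pool.Agent.Q331.AST
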